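import Pool.Agent.Results.MP_4b14b2_mp.NotDeterminedByLinearPart

set_option autoImplicit false

/-! The coefficient of `ε` in every flow of a deformation of the Riemann hierarchy is a Miura
invariant. -/

open MvPolynomial

namespace Pool.Agent.Y498.RH

open Pool.Agent.H93RH hiding IsDeformation
open Pool.Agent.Results.MP_4b14b2_mp.NotDeterminedByLinearPart
open Finset.HasAntidiagonal (antidiagonal)

theorem dx_zero' : dx (0 : DP) = 0 := by
  have := dx_add 0 0
  simpa using this

theorem coeff0_dxE {V : EDP} (h : PowerSeries.coeff 0 V = 0) : PowerSeries.coeff 0 (dxE V) = 0 := by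
  unfold dxE
  rw [PowerSeries.coeff_mk, h, dx_zero']

theorem coeff0_dxE_iter {V : EDP} (h : PowerSeries.coeff 0 V = 0) (k : ℕ) :
    PowerSeries.coeff 0 (dxE^[k] V) = 0 := by
  induction k with
  | zero => exact h
  | succ k ih => rw [Function.iterate_succ_apply']; exact coeff0_dxE ih

theorem coeff0_substP (W : EDP) (hW : PowerSeries.coeff 0 W = 0) (G : DP) :
    PowerSeries.coeff 0 (substP W G) = G := by
  classical
  unfold substP
  rw [map_sum]
  conv_rhs => rw [G.as_sum]
  refine Finset.sum_congr rfl fun s _ => ?_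
  rw [PowerSeries.coeff_zero_eq_constantCoeff_apply, map_mul,
    ← PowerSeries.coeff_zero_eq_constantCoeff_apply, coeff0_substC, monomial_eq]
  congr 1
  rw [map_finsuppProd]
  refine Finsupp.prod_congr fun k _ => ?_
  rw [map_pow, map_add, ← PowerSeries.coeff_zero_eq_constantCoeff_apply,
    ← PowerSeries.coeff_zero_eq_constantCoeff_apply, coeff0_dxE_iter hW, add_zero,
    PowerSeries.coeff_C, if_pos rfl]

theorem dCX (a : PowerSeries ℂ) : dx (C a * X 0 : DP) =
    X 0 * C (PowerSeries.derivative ℂ a) * X 0 + C a * X 1 := by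
  rw [dx_mul_X, dx_C]

/-- Coefficient of `ε` in every flow is the same for Miura equivalent deformations. -/
theorem inv_all (Q Q' : ℕ → EDP) (hQ : IsDeformation Q) (hQ' : IsDeformation Q')
    (h : MiuraEquivalent Q Q') (d : ℕ) : PowerSeries.coeff 1 (Q d) = PowerSeries.coeff 1 (Q' d) := by
  classical
  obtain ⟨W, hW0, hW, h⟩ := h
  have h1 := congrArg (PowerSeries.coeff 1) (h d)
  have hanti : (antidiagonal 1 : Finset (ℕ × ℕ)) = {(0, 1), (1, 0)} := rfl
  obtain ⟨f, hf⟩ := weight_one (PowerSeries.coeff 1 W) (by simpa using hW 1)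
  obtain ⟨c, hc⟩ : ∃ c : PowerSeries ℂ, c = PowerSeries.monomial d (((d.factorial : ℕ) : ℂ)⁻¹) :=
    ⟨_, rfl⟩
  have l1 : PowerSeries.coeff 0 (Q d) = C c * X 0 := by rw [hQ.lead d, hc]
  have l2 : PowerSeries.coeff 0 (Q' d) = C c * X 0 := by rw [hQ'.lead d, hc]
  have e1 : ∀ b : PowerSeries ℂ, (C b * X 0 : DP) = monomial (Finsupp.single 0 1) b := by
    intro b
    rw [C_mul_X_eq_monomial]
  -- left-hand side
  have hev : PowerSeries.coeff 1 (evol (Q d) W) =
      (C c * X 0) * C (PowerSeries.derivative ℂ f) * X 0 +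
        C f * (X 0 * C (PowerSeries.derivative ℂ c) * X 0 + C c * X 1) := by
    unfold evol
    rw [PowerSeries.coeff_mk, hanti, Finset.sum_insert (by simp), Finset.sum_singleton, l1,
      hW0, hf]
    have hz : ∑ᶠ k : ℕ, dx^[k] (PowerSeries.coeff 1 (Q d)) * pd k (0 : DP) = 0 := by
      simp only [pd_zero', mul_zero, finsum_zero]
    rw [hz, add_zero]
    show EE (fun k => dx^[k] (C c * X 0)) (C f * X 0) = _
    rw [EE_mul_X, EE_C, Function.iterate_zero, id, zero_add, Function.iterate_one, dCX]
  -- right-hand side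
  have hdx0 : PowerSeries.coeff 0 (dxE W) = 0 := coeff0_dxE hW0
  have hdx1 : PowerSeries.coeff 1 (dxE W) = X 0 * C (PowerSeries.derivative ℂ f) * X 0 + C f * X 1 := by
    unfold dxE
    rw [PowerSeries.coeff_mk, hf, dCX]
  have hs : PowerSeries.coeff 1 (substE W (Q' d)) =
      C c * (X 0 * C (PowerSeries.derivative ℂ f) * X 0 + C f * X 1) +
        (C (PowerSeries.derivative ℂ c) * (C f * X 0)) * X 0 + PowerSeries.coeff 1 (Q' d) := by
    unfold substE
    rw [PowerSeries.coeff_mk, hanti, Finset.sum_insert (by simp), Finset.sum_singleton,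
      coeff0_substP W hW0, l2, e1, substP_monomial, Finsupp.prod_single_index (by simp)]
    congr 1
    rw [PowerSeries.coeff_mul, hanti, Finset.sum_insert (by simp), Finset.sum_singleton,
      coeff0_substC, coeff1_substC W, hf, pow_one, zero_add, Function.iterate_one]
    rw [map_add, map_add, PowerSeries.coeff_C, if_neg one_ne_zero,
      zero_add, hdx1, hdx0, add_zero, PowerSeries.coeff_C, if_pos rfl]
  rw [map_add, hev, hs] at h1
  linear_combination h1

end Pool.Agent.Y498.RH
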